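import Pool.Agent.H562.WM.Main

/-!
# Wave maps into hyperbolic space: breakdown at all points of a prescribed locally finite set, and
instantaneous breakdown

Let `d ≥ 3` and let the target be hyperbolic space of any dimension `n + 1 ≥ 2` (`d = n + 1 = 3` in
the problem). For arbitrary smooth data `v`, any locally finite set `S` of points of `ℝ^d` and any
positive radii `ε(s)`, there are smooth data `u`, equal to `v` outside the balls `B(s, ε(s))` and
as close to `v` as we wish in `H^m × H^(m-1)`, `m < d/2`, whose wave map breaks down at ALL the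
points `(T(s), s)`, `s ∈ S`, `0 < T(s) < ε(s)`.

So smooth data whose Cauchy problem has no smooth solution on `[0, τ] × ℝ^d` for ANY `τ > 0` (and
not even outside a compact set) are dense: they can be chosen equal to `v` on any given ball, and the
difference to `v` can be chosen arbitrarily small in `H^m × H^(m-1)`, for all integers `m < d/2` (for
`d = 3` in `H^1 × L²`).
-/

set_option autoImplicit false

namespace Pool.Agent.Results.MP_9f60e7_an.InstantBreakdown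

open Filter Topology MeasureTheory
open Pool.Agent.Y276.WM (cone IsWaveMap)
open Pool.Agent.H562.WM (LocFin)

variable {d n : ℕ}

/-- smooth initial position and velocity, the position with values in the upper half space -/
def IsData (u0 u1 : (Fin d → ℝ) → (Fin (n + 1) → ℝ)) : Prop :=
  ContDiff ℝ (⊤ : ℕ∞) u0 ∧ ContDiff ℝ (⊤ : ℕ∞) u1 ∧ ∀ x, 0 < u0 x (Fin.last n)

/-- the squares of the `L²` norms of all derivatives of order `m` of `u - v` are smaller than `δ`,
for all `m` with `2 (m + k) < d` -/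
def Near (k : ℕ) (δ : ℝ) (u v : (Fin d → ℝ) → (Fin (n + 1) → ℝ)) : Prop :=
  ∀ m : ℕ, 2 * (m + k) < d →
    ∫⁻ x, ENNReal.ofReal (‖iteratedFDeriv ℝ m (fun x => u x - v x) x‖ ^ 2) < ENNReal.ofReal δ

/-- The wave map with the data `u0`, `u1` breaks down at the vertex `(T, s)` of the backward light
cone: there is a smooth wave map with these data on the cone without its vertex, each such wave map
tends to the boundary of hyperbolic space at the vertex (along the axis of the cone), and there is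
no smooth wave map with these data on the whole cone. -/
def BreaksAt (u0 u1 : (Fin d → ℝ) → (Fin (n + 1) → ℝ)) (T : ℝ) (s : Fin d → ℝ) : Prop :=
  (∃ u, IsWaveMap (cone T s \ {Fin.cons T s}) u0 u1 u) ∧
  (∀ u, IsWaveMap (cone T s \ {Fin.cons T s}) u0 u1 u →
    Tendsto (fun t => u (Fin.cons t s) (Fin.last n)) (𝓝[<] T) (𝓝 0)) ∧
  ∀ u, ¬ IsWaveMap (cone T s) u0 u1 u

/-- **Breakdown at all points of a locally finite set, and instantaneous breakdown.** -/
theorem result (hd : 3 ≤ d) (hn : 1 ≤ n) (v0 v1 : (Fin d → ℝ) → (Fin (n + 1) → ℝ))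
    (hv : IsData v0 v1) :
    -- breakdown at all points of a prescribed locally finite set
    (∀ (S : Set (Fin d → ℝ)) (ε : (Fin d → ℝ) → ℝ) (δ : ℝ), LocFin S → (∀ s ∈ S, 0 < ε s) →
      0 < δ → ∃ (u0 u1 : (Fin d → ℝ) → (Fin (n + 1) → ℝ)) (T : (Fin d → ℝ) → ℝ),
        IsData u0 u1 ∧ Near 0 δ u0 v0 ∧ Near 1 δ u1 v1 ∧
        (∀ x, (∀ s ∈ S, ε s ^ 2 ≤ ∑ i, (x i - s i) ^ 2) → u0 x = v0 x ∧ u1 x = v1 x) ∧
        ∀ s ∈ S, 0 < T s ∧ T s < ε s ∧ BreaksAt u0 u1 (T s) s) ∧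
    -- instantaneous breakdown
    (∀ R0 δ : ℝ, 0 < δ → ∃ (u0 u1 : (Fin d → ℝ) → (Fin (n + 1) → ℝ)),
      IsData u0 u1 ∧ Near 0 δ u0 v0 ∧ Near 1 δ u1 v1 ∧
      (∀ x, ∑ i, x i ^ 2 ≤ R0 ^ 2 → u0 x = v0 x ∧ u1 x = v1 x) ∧
      ∀ τ R : ℝ, 0 < τ → ∀ u : (Fin (d + 1) → ℝ) → (Fin (n + 1) → ℝ),
        ¬ IsWaveMap {P | 0 ≤ P 0 ∧ P 0 ≤ τ ∧ R ^ 2 ≤ ∑ i : Fin d, P i.succ ^ 2} u0 u1 u) := by
  obtain ⟨hv0, hv1, hpos⟩ := hv
  refine ⟨fun S ε δ hS hε hδ => ?_, fun R0 δ hδ => ?_⟩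
  · obtain ⟨u0, u1, T, h1, h2, h3, h4, h5, h6, h7⟩ :=
      Pool.Agent.H562.WM.many hd hn v0 v1 hv0 hv1 hpos S ε δ hS hε hδ
    refine ⟨u0, u1, T, ⟨h1, h2, h3⟩, fun m hm => h5 m hm, fun m hm => h6 m hm, h4, fun s hs => ?_⟩
    obtain ⟨a1, a2, a3, a4, a5⟩ := h7 s hs
    exact ⟨a1, a2, a3, a4, fun u => a5 _ u subset_rfl⟩
  · obtain ⟨u0, u1, h1, h2, h3, h4, h5, h6, h7⟩ :=
      Pool.Agent.H562.WM.instant hd hn v0 v1 hv0 hv1 hpos R0 δ hδ
    exact ⟨u0, u1, ⟨h1, h2, h3⟩, fun m hm => h5 m hm, fun m hm => h6 m hm, h4, h7⟩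

end Pool.Agent.Results.MP_9f60e7_an.InstantBreakdown
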